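import Pool.Agent.MP_bd94e8_al.H92B.FdA

/-! Filtered density. -/

set_option autoImplicit false
set_option linter.unusedSectionVars false

namespace Pool.Agent.MP_bd94e8_al.H89

open Module Function

namespace FdA

variable {k F V Pt : Type} [Field k] [Field F] [Algebra k F] [AddCommGroup V] [Module F V]
  [Module k V] [IsScalarTower k F V] [Fintype Pt] {Γ : Gr F V} {w : Pt → ℝ}
  {U : Submodule k (Pt → V)} {e : End F V}

theorem ap_e_f (he : e * e = e) (x : Pt → V) : ap k e (ap k (1 - e) x) = 0 := by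
  rw [← ap_mul, mul_sub, mul_one, he, sub_self, ap_zero]

theorem ap_f_e (he : e * e = e) (x : Pt → V) : ap k (1 - e) (ap k e x) = 0 := by
  rw [← ap_mul, sub_mul, one_mul, he, sub_self, ap_zero]

theorem ap_e_e (he : e * e = e) (x : Pt → V) : ap k e (ap k e x) = ap k e x := by
  rw [← ap_mul, he]

theorem ap_f_f (he : e * e = e) (x : Pt → V) :
    ap k (1 - e) (ap k (1 - e) x) = ap k (1 - e) x := by
  conv_lhs => rw [ap_sub, ap_one, ap_e_f he, sub_zero]

theorem ap_split (e : End F V) (x : Pt → V) : ap k (1 - e) x + ap k e x = x := by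
  rw [ap_sub, ap_one, sub_add_cancel]

variable (k Γ w U e) in
/-- The elements of the complement lift with an error of index at most `g - d`. -/
def AL (d : ℝ) : Prop := ∀ x ∈ inU k Γ w U, ∀ g, ∃ u ∈ U, Le k Γ w g u ∧
  pr k Γ w g u = pr k Γ w g (ap k (1 - e) x) ∧ Le k Γ w (g - d) (ap k e u)

variable (k Γ w U e) in
/-- The elements of the complement lift with an error of index below `g - d`. -/
def AS (d : ℝ) : Prop := ∀ x ∈ inU k Γ w U, ∀ g, ∃ u ∈ U, Le k Γ w g u ∧
  pr k Γ w g u = pr k Γ w g (ap k (1 - e) x) ∧ Lt k Γ w (g - d) (ap k e u)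

variable (k Γ w U e) in
/-- The elements of the complement lift without error. -/
def AF : Prop := ∀ x ∈ inU k Γ w U, ∀ g, ∃ u ∈ U, Le k Γ w g u ∧
  pr k Γ w g u = pr k Γ w g (ap k (1 - e) x) ∧ ap k e u = 0

theorem sh_le (he : e * e = e) (hc : ∀ r, e * Γ.π r = Γ.π r * e) {d g : ℝ} {u : Pt → V} :
    Le k (Γ.sh e he hc d) w g u ↔
      Le k Γ w g (ap k (1 - e) u) ∧ Le k Γ w (g - d) (ap k e u) := by
  constructor
  · intro h
    refine ⟨fun i hi => ?_, fun i hi => ?_⟩
    · have h1 := congrArg (ap k (1 - e)) (h i hi)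
      rwa [pr_sh, map_add, ← pr_ap (comm_one_sub <| hc ·), ← pr_ap (comm_one_sub <| hc ·),
        ap_f_f he, ap_f_e he, map_zero, add_zero, map_zero] at h1
    · have h1 := congrArg (ap k e) (h (i + d) (by linarith))
      rwa [pr_sh, map_add, ← pr_ap hc, ← pr_ap hc, ap_e_f he, ap_e_e he, map_zero, zero_add,
        map_zero, add_sub_cancel_right] at h1
  · rintro ⟨h1, h2⟩ i hi
    rw [pr_sh, h1 i hi, h2 _ (by linarith), add_zero]

theorem e3 (he : e * e = e) (hc : ∀ r, e * Γ.π r = Γ.π r * e)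
    (hW : ∀ x ∈ inU k Γ w U, ap k e x ∈ inU k Γ w U) {d : ℝ} (hd : 0 < d) (hA : AL k Γ w U e d)
    (g h : ℝ) : h ≤ g + d → ∀ u ∈ U, Lt k Γ w h (ap k (1 - e) u) → Le k Γ w g (ap k e u) →
      pr k Γ w g (ap k e u) ∈ inU k Γ w U := by
  have fin : ∀ u ∈ U, Le k Γ w g (ap k (1 - e) u) → Le k Γ w g (ap k e u) →
      pr k Γ w g (ap k e u) ∈ inU k Γ w U := by
    intro u hu h1 h2
    have h3 := h1.add h2
    rw [ap_split] at h3
    rw [pr_ap hc]
    exact hW _ (mem_of_le hu h3)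
  induction h using desc (idx Γ w) with
  | h0 h hI =>
    intro _ u hu h1 h2
    refine fin u hu ?_ h2
    rw [h1.zero hI]
    exact fun _ _ => map_zero _
  | hs h g₁ hlt hI ih =>
    intro hh u hu h1 h2
    have h3 := h1.le hI
    rcases le_or_gt g₁ g with hg | hg
    · exact fin u hu (h3.mono hg) h2
    · have h4 := h3.add (h2.mono hg.le)
      rw [ap_split] at h4
      obtain ⟨u₁, hu₁, a1, a2, a3⟩ := hA _ (mem_of_le hu h4) g₁
      have h5 := ih (by linarith) (u - u₁) (U.sub_mem hu hu₁) ?_ ?_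
      · rwa [map_sub, map_sub, a3 g (by linarith), sub_zero] at h5
      · rw [map_sub]
        refine (h3.sub (a1.ap (comm_one_sub <| hc ·))).lt ?_
        rw [map_sub, pr_ap (comm_one_sub <| hc ·) g₁ u₁, a2, ← pr_ap (comm_one_sub <| hc ·),
          ap_f_f he, pr_ap (comm_one_sub <| hc ·) g₁ (pr k Γ w g₁ u), pr_pr,
          pr_ap (comm_one_sub <| hc ·), sub_self]
      · rw [map_sub]
        exact h2.sub (a3.mono (by linarith))

theorem step [FiniteDimensional k F] [FiniteDimensional F V] (he : e * e = e)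
    (hc : ∀ r, e * Γ.π r = Γ.π r * e) (hW : ∀ x ∈ inU k Γ w U, ap k e x ∈ inU k Γ w U) {d : ℝ}
    (hd : 0 < d) (hA : AL k Γ w U e d)
    (hmin : ∀ Γ' : Gr F V, finrank k (EndS k (inU k Γ w U) : Submodule k (End F V)) ≤
      finrank k (EndS k (inU k Γ' w U) : Submodule k (End F V))) :
    ∃ (φ : End F V) (U' : Submodule k (Pt → V)), e * φ = φ ∧ φ * e = 0 ∧
      (∀ u, u ∈ U' ↔ ap k (1 + φ) u ∈ U) ∧ inU k Γ w U' = inU k Γ w U ∧ AS k Γ w U' e d := by
  have hf : ∀ r, (1 - e) * Γ.π r = Γ.π r * (1 - e) := fun r => comm_one_sub (hc r)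
  have E3 : ∀ y ∈ inU k (Γ.sh e he hc d) w U, ap k (1 - e) y = 0 → y ∈ inU k Γ w U := by
    intro y hy h0
    refine mem_of_pr fun g => ?_
    obtain ⟨u, hu, h1, h2⟩ := hy (g + d)
    rw [sh_le, add_sub_cancel_right] at h1
    rw [pr_sh, pr_sh, h0, map_zero, zero_add, add_sub_cancel_right] at h2
    have h3 := congrArg (ap k (1 - e)) h2
    rw [map_add, ← pr_ap hf, ← pr_ap hf, ← pr_ap hf, ap_f_f he, ap_f_e he, ap_f_e he, map_zero,
      add_zero] at h3
    rw [h3, zero_add] at h2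
    have h4 := ap_split (k := k) e y
    rw [h0, zero_add] at h4
    rw [← h4, ← h2]
    exact e3 he hc hW hd hA g (g + d) le_rfl u hu (h1.1.lt h3) h1.2
  have EA : ∀ {g : ℝ} {u : Pt → V}, u ∈ U → Le k Γ w g u → Le k Γ w (g - d) (ap k e u) →
      pr k Γ w g u + pr k Γ w (g - d) (ap k e u) ∈ inU k (Γ.sh e he hc d) w U := by
    intro g u hu h1 h2
    have h3 := mem_of_le (Γ := Γ.sh e he hc d) hu ((sh_le he hc).2 ⟨h1.ap hf, h2⟩)
    rwa [pr_sh, ap_sub, ap_one, map_sub, h2 g (by linarith), sub_zero] at h3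
  obtain ⟨φ, p1, p2, p3⟩ := ext_split (inU k Γ w U) (inU k (Γ.sh e he hc d) w U) e he hW
    (fun x hx g => by
      obtain ⟨u, hu, h1, h2⟩ := hW x hx (g - d)
      refine ⟨u, hu, (sh_le he hc).2 ⟨(h1.ap hf).mono (by linarith), h1.ap hc⟩, ?_⟩
      rw [pr_sh, pr_sh, h1.ap hf g (by linarith), ap_f_e he, map_zero, ap_e_e he, pr_ap hc _ u, h2,
        ← pr_ap hc, ap_e_e he])
    (fun y hy => mem_of_pr fun g => by
      obtain ⟨u, hu, h1, h2⟩ := hy g
      rw [sh_le] at h1
      have h3 := congrArg (ap k (1 - e)) h2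
      rw [pr_sh, pr_sh, map_add, map_add, ← pr_ap hf, ← pr_ap hf, ← pr_ap hf, ← pr_ap hf,
        ap_f_f he, ap_f_f he, ap_f_e he, ap_f_e he, map_zero, add_zero, add_zero] at h3
      have h4 := h1.1.add (h1.2.mono (by linarith : g - d ≤ g))
      rw [ap_split] at h4
      have h5 := mem_of_le hu h4
      rw [← ap_split (k := k) e u, map_add, h1.2 g (by linarith), add_zero] at h5
      rwa [← h3])
    E3
    (fun x hx => by
      have : ∀ g, ∃ y ∈ inU k (Γ.sh e he hc d) w U,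
          ap k (1 - e) y = pr k Γ w g (ap k (1 - e) x) := by
        intro g
        obtain ⟨u, hu, h1, h2, h3⟩ := hA x hx g
        refine ⟨_, EA hu h1 h3, ?_⟩
        rw [map_add, h2, ← pr_ap hf, ← pr_ap hf, ap_f_f he, ap_f_e he, map_zero, add_zero]
      choose y hy hy' using this
      refine ⟨∑ g ∈ idx Γ w, y g, Submodule.sum_mem _ fun g _ => hy g, ?_⟩
      rw [map_sum]
      simp only [hy']
      exact sum_pr _)
    (hmin _)
  set ψ : End F V := ∑ r ∈ Γ.s, Γ.π (r - d) * φ * Γ.π r with hψ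
  have r1 : ∀ r, ψ * Γ.π r = Γ.π (r - d) * φ * Γ.π r := by
    intro r
    rw [hψ, Finset.sum_mul, Finset.sum_eq_single r
      (fun b _ hb => by rw [mul_assoc, Γ.orth b r hb, mul_zero])
      (fun h => by rw [Γ.supp r h, mul_zero]), mul_assoc, Γ.idem]
  have low : ∀ r, Γ.π (r - d) * ψ = ψ * Γ.π r := by
    intro r
    rw [r1, hψ, Finset.mul_sum, Finset.sum_eq_single r
      (fun b _ hb => by
        rw [← mul_assoc, ← mul_assoc, Γ.orth _ _ fun e => hb (by linarith), zero_mul, zero_mul])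
      (fun h => by rw [Γ.supp r h, mul_zero, mul_zero]), ← mul_assoc, ← mul_assoc, Γ.idem]
  have low' : ∀ r, Γ.π (r - d) * (-ψ) = (-ψ) * Γ.π r := fun r => by
    rw [mul_neg, neg_mul, low]
  have q1 : e * ψ = ψ := by
    rw [hψ, Finset.mul_sum]
    exact Finset.sum_congr rfl fun r _ => by
      rw [← mul_assoc, ← mul_assoc, hc, mul_assoc _ e φ, p1]
  have q2 : ψ * e = 0 := by
    rw [hψ, Finset.sum_mul]
    exact Finset.sum_eq_zero fun r _ => by
      rw [mul_assoc, ← hc, ← mul_assoc, mul_assoc _ φ e, p2, mul_zero, zero_mul]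
  have q3 : ψ * ψ = 0 := by
    conv_lhs => rw [← q1, mul_assoc, ← mul_assoc ψ, q2, zero_mul, mul_zero]
  have q4 : ∀ u : Pt → V, ap k (1 + ψ) (u + ap k (-ψ) u) = u := by
    intro u
    change ap k ((1 + ψ) * (1 + -ψ)) u = u
    rw [mul_add, add_mul, add_mul, mul_neg, mul_neg, q3]
    simp [ap_one]
  have hZ : ∀ x ∈ inU k Γ w U, ∀ g, pr k Γ w g (ap k (1 - e) x) + ap k ψ (pr k Γ w g x) ∈
      inU k (Γ.sh e he hc d) w U := by
    intro x hx g
    have h1 := pr_mem (p3 _ (pr_mem hx g)) g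
    have h2 : pr k Γ w (g - d) (ap k φ (pr k Γ w g x)) = ap k ψ (pr k Γ w g x) := by
      funext p
      have := LinearMap.congr_fun (r1 (g + w p)) (x p)
      rw [show g + w p - d = g - d + w p by ring] at this
      exact this.symm
    have h3 : (1 - e) * φ = 0 := by rw [sub_mul, one_mul, p1, sub_self]
    rwa [pr_sh, map_add (ap k (1 - e)), map_add (ap k e), ap_f_f he, ap_e_f he, ← ap_mul (1 - e) φ,
      h3, ap_zero, add_zero, zero_add, ← ap_mul e φ, p1, h2, pr_ap hf, pr_pr, ← pr_ap hf] at h1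
  have hin : inU k Γ w (U.comap (ap k (1 + ψ))) = inU k Γ w U :=
    le_antisymm (inU_le hd low fun u hu => hu)
      (inU_le hd low' fun u hu => by rw [Submodule.mem_comap, q4]; exact hu)
  refine ⟨ψ, U.comap (ap k (1 + ψ)), q1, q2, fun _ => Iff.rfl, hin, fun x hx g => ?_⟩
  rw [hin] at hx
  obtain ⟨u, hu, h1, h2, h3⟩ := hA x hx g
  have h4 := Submodule.sub_mem _ (EA hu h1 h3) (hZ x hx g)
  rw [h2, add_sub_add_left_eq_sub] at h4
  have h5 : ap k e (pr k Γ w (g - d) (ap k e u) - ap k ψ (pr k Γ w g x)) =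
      pr k Γ w (g - d) (ap k e u) - ap k ψ (pr k Γ w g x) := by
    rw [map_sub, ← pr_ap hc, ap_e_e he, ← ap_mul e ψ, q1]
  obtain ⟨u₂, hu₂, b1, b2⟩ := E3 _ h4 (by rw [ap_sub, ap_one, h5, sub_self]) (g - d)
  rw [map_sub, pr_pr, pr_low low, pr_pr] at b2
  have c1 : Le k Γ w g (u - u₂) := h1.sub (b1.mono (by linarith))
  have c2 : pr k Γ w g (u - u₂) = pr k Γ w g (ap k (1 - e) x) := by
    rw [map_sub, b1 g (by linarith), sub_zero, h2]
  refine ⟨u - u₂ + ap k (-ψ) (u - u₂), by rw [Submodule.mem_comap, q4]; exact U.sub_mem hu hu₂,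
    c1.add ((c1.low low').mono (by linarith)), ?_, ?_⟩
  · rw [map_add, c1.low low' g (by linarith), add_zero, c2]
  · have c3 : ap k e (ap k (-ψ) (u - u₂)) = ap k (-ψ) (u - u₂) := by
      rw [← ap_mul, mul_neg, q1]
    rw [map_add, map_sub (ap k e), c3]
    refine ((h3.sub (b1.ap hc)).add (c1.low low')).lt ?_
    have c4 : -ψ * (1 - e) = -ψ := by rw [mul_sub, mul_one, neg_mul, q2, neg_zero, sub_zero]
    rw [map_add, map_sub, pr_low low', c2, pr_ap hc _ u₂, b2, h5, pr_ap hf, ← ap_mul (-ψ), c4]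
    change _ - (_ - ap k ψ (pr k Γ w g x)) + -ap k ψ (pr k Γ w g x) = 0
    abel

theorem phase [FiniteDimensional k F] [FiniteDimensional F V] (he : e * e = e)
    (hc : ∀ r, e * Γ.π r = Γ.π r * e) (W : Submodule k (Pt → V)) (hW : ∀ x ∈ W, ap k e x ∈ W)
    (R : Submodule k (Pt → V) → Prop)
    (hR : ∀ U U' (a a' : End F V), R U → a * a' = 1 → a' * a = 1 →
      (∀ u, u ∈ U' ↔ ap k a u ∈ U) → R U')
    (hmin : ∀ U, R U → ∀ Γ' : Gr F V, finrank k (EndS k W : Submodule k (End F V)) ≤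
      finrank k (EndS k (inU k Γ' w U) : Submodule k (End F V)))
    (hU : R U) (hin : inU k Γ w U = W) :
    ∃ U', R U' ∧ inU k Γ w U' = W ∧ AF k Γ w U' e ∧ ∀ u ∈ U, ap k (1 - e) u = 0 → u ∈ U' := by
  classical
  have key : ∀ d : ℝ, 0 ≤ d → ∀ U, R U → inU k Γ w U = W → AS k Γ w U e d →
      ∃ U', R U' ∧ inU k Γ w U' = W ∧ AF k Γ w U' e ∧
        ∀ u ∈ U, ap k (1 - e) u = 0 → u ∈ U' := by
    intro d
    induction d using asc ((idx Γ w ×ˢ idx Γ w).image fun x : ℝ × ℝ => x.1 - x.2) with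
    | h0 d hD =>
      intro _ U hU hin hA
      refine ⟨U, hU, hin, fun x hx g => ?_, fun u hu _ => hu⟩
      by_cases hg : g ∈ idx Γ w
      · obtain ⟨u, hu, h1, h2, h3⟩ := hA x hx g
        refine ⟨u, hu, h1, h2, h3.zero fun i hi => ?_⟩
        have := hD (g - i) (Finset.mem_image.2 ⟨(g, i), Finset.mem_product.2 ⟨hg, hi⟩, rfl⟩)
        linarith
      · exact ⟨0, U.zero_mem, fun _ _ => map_zero _, by rw [map_zero, pr_notMem hg], map_zero _⟩
    | hs d d' hlt hD ih =>
      intro hd U hU hin hA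
      have hL : AL k Γ w U e d' := by
        intro x hx g
        by_cases hg : g ∈ idx Γ w
        · obtain ⟨u, hu, h1, h2, h3⟩ := hA x hx g
          refine ⟨u, hu, h1, h2, h3.le fun i hi hlt => ?_⟩
          have := hD (g - i) (Finset.mem_image.2 ⟨(g, i), Finset.mem_product.2 ⟨hg, hi⟩, rfl⟩)
            (by linarith)
          linarith
        · exact ⟨0, U.zero_mem, fun _ _ => map_zero _, by rw [map_zero, pr_notMem hg],
            fun _ _ => by rw [map_zero, map_zero]⟩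
      obtain ⟨φ, U', p1, p2, p3, p4, p5⟩ := step he hc (by rw [hin]; exact hW)
        (hd.trans_lt hlt) hL (by rw [hin]; exact hmin U hU)
      have q3 : φ * φ = 0 := by
        conv_lhs => rw [← p1, mul_assoc, ← mul_assoc φ, p2, zero_mul, mul_zero]
      obtain ⟨U'', r1, r2, r3, r4⟩ := ih (hd.trans hlt.le) U'
        (hR U U' (1 + φ) (1 - φ) hU (by rw [mul_sub, add_mul, add_mul, q3]; simp)
          (by rw [sub_mul, mul_add, mul_add, q3]; simp) p3) (p4.trans hin) p5
      refine ⟨U'', r1, r2, r3, fun u hu h0 => r4 u ((p3 u).2 ?_) h0⟩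
      have h4 := ap_split (k := k) e u
      rw [h0, zero_add] at h4
      rw [ap_add, ap_one, ← h4, ← ap_mul φ, p2, ap_zero, add_zero, h4]
      exact hu
  refine key 0 le_rfl U hU hin fun x hx g => ?_
  have hx' : ap k (1 - e) x ∈ inU k Γ w U := by
    rw [hin] at hx ⊢
    exact W.sub_mem hx (hW x hx)
  obtain ⟨u, hu, h1, h2⟩ := hx' g
  refine ⟨u, hu, h1, h2, ?_⟩
  rw [sub_zero]
  refine (h1.ap hc).lt ?_
  rw [pr_ap hc, h2, ← pr_ap hc, ap_e_f he, map_zero]

theorem final (he : e * e = e) (h1 : AF k Γ w U e) (h2 : AF k Γ w U (1 - e)) :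
    ∀ u ∈ U, ap k e u ∈ U := by
  have key : ∀ h, ∀ u ∈ U, Lt k Γ w h u → ap k e u ∈ U := by
    intro h
    induction h using desc (idx Γ w) with
    | h0 h hI =>
      intro u _ hl
      rw [hl.zero hI, map_zero]
      exact U.zero_mem
    | hs h g hlt hI ih =>
      intro u hu hl
      have hle := hl.le hI
      obtain ⟨u₁, hu₁, a1, a2, a3⟩ := h1 _ (mem_of_le hu hle) g
      obtain ⟨u₂, hu₂, b1, b2, b3⟩ := h2 _ (mem_of_le hu hle) g
      have c := ih (u - u₁ - u₂) (U.sub_mem (U.sub_mem hu hu₁) hu₂)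
        (((hle.sub a1).sub b1).lt (by
          rw [map_sub, map_sub, a2, b2, sub_sub, ← map_add, sub_sub_cancel, ap_split, pr_pr,
            sub_self]))
      have h4 := ap_split (k := k) e u₂
      rw [b3, zero_add] at h4
      rw [map_sub, map_sub, a3, sub_zero, h4] at c
      simpa using U.add_mem c hu₂
  intro u hu
  obtain ⟨b, hb⟩ := (idx Γ w).bddAbove
  refine key (b + 1) u hu fun g hg => pr_notMem (fun hm => ?_) u
  have := hb hm
  linarith

theorem core [FiniteDimensional k F] [FiniteDimensional F V] (w : Pt → ℝ)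
    (R : Submodule k (Pt → V) → Prop)
    (hR : ∀ U U' (a a' : End F V), R U → a * a' = 1 → a' * a = 1 →
      (∀ u, u ∈ U' ↔ ap k a u ∈ U) → R U') (h0 : ∃ U, R U) :
    ∃ (Γ : Gr F V) (U : Submodule k (Pt → V)), R U ∧ ∀ e : End F V, e * e = e →
      (∀ r, e * Γ.π r = Γ.π r * e) → (∀ x ∈ inU k Γ w U, ap k e x ∈ inU k Γ w U) →
      ∃ U', R U' ∧ ∀ u ∈ U', ap k e u ∈ U' := by
  classical
  have hex : ∃ m, ∃ (Γ : Gr F V) (U : Submodule k (Pt → V)), R U ∧
      finrank k (EndS k (inU k Γ w U) : Submodule k (End F V)) = m := by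
    obtain ⟨U, hU⟩ := h0
    refine ⟨_, ⟨fun r => if r = 0 then 1 else 0, {0}, fun r hr => if_neg (by simpa using hr),
      fun r r' h => ?_, by simp⟩, U, hU, rfl⟩
    by_cases hr : r = 0
    · rw [if_neg (fun h' : r' = 0 => h (hr.trans h'.symm)), mul_zero]
    · rw [if_neg hr, zero_mul]
  obtain ⟨Γ, U, hU, hm⟩ := Nat.find_spec hex
  have hmin : ∀ U', R U' → ∀ Γ' : Gr F V,
      finrank k (EndS k (inU k Γ w U) : Submodule k (End F V)) ≤
        finrank k (EndS k (inU k Γ' w U') : Submodule k (End F V)) := fun U' hU' Γ' => by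
    rw [hm]
    exact Nat.find_min' hex ⟨Γ', U', hU', rfl⟩
  refine ⟨Γ, U, hU, fun e he hc hW => ?_⟩
  obtain ⟨U₁, a1, a2, a3, -⟩ := phase he hc _ hW R hR hmin hU rfl
  have hf : (1 - e) * (1 - e) = 1 - e := by
    rw [mul_sub, mul_one, sub_mul, one_mul, he, sub_self, sub_zero]
  obtain ⟨U₂, b1, b2, b3, b4⟩ := phase hf (comm_one_sub <| hc ·) (inU k Γ w U)
    (fun x hx => Submodule.sub_mem _ hx (hW x hx)) R hR hmin a1 a2
  refine ⟨U₂, b1, final (Γ := Γ) (w := w) he (fun x hx g => ?_) b3⟩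
  rw [b2, ← a2] at hx
  obtain ⟨u, hu, c1, c2, c3⟩ := a3 x hx g
  exact ⟨u, b4 u hu (by rw [sub_sub_cancel]; exact c3), c1, c2, c3⟩

theorem inU_stab [DecidableEq Pt] {ι : Type} (P : Prob k F Pt ι Unit)
    (hU : ∀ b ∈ P.B, ∀ u ∈ U, act b u ∈ U) (b₀ : Matrix Pt Pt F)
    (h : ∀ (i j : ι) (s : ℝ), ∃ b ∈ P.B, ∀ q p, P.vt p = i → P.vt q = j →
      (w p - w q = s → b q p = b₀ q p) ∧ (s < w p - w q → b q p = 0))
    {x : Pt → V} (hx : x ∈ inU k Γ w U) : act b₀ x ∈ inU k Γ w U := by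
  classical
  choose b hb hb' using h
  choose u hu hu1 hu2 using hx
  intro g
  let τ : Pt × Pt → ι × ι × ℝ := fun z => (P.vt z.2, P.vt z.1, w z.2 - w z.1)
  have term : ∀ (t : ι × ι × ℝ) (g' : ℝ) (q p : Pt), g ≤ g' →
      Γ.π (g' + w q) (P.blk t.1 t.2.1 (b t.1 t.2.1 t.2.2) q p • u (g - t.2.2) p) =
        if g' = g ∧ t = τ (q, p) then Γ.π (g + w q) (b₀ q p • x p) else 0 := by
    rintro ⟨i, j, s⟩ g' q p hg
    by_cases hv : P.vt p = i ∧ P.vt q = j
    · rw [P.blk_pos _ hv.1 hv.2]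
      dsimp only
      by_cases hs : s < w p - w q
      · rw [(hb' i j s q p hv.1 hv.2).2 hs, zero_smul, map_zero, if_neg]
        rintro ⟨-, e⟩
        have : s = w p - w q := congrArg (fun t : ι × ι × ℝ => t.2.2) e
        linarith
      · by_cases hs' : g' = g ∧ w p - w q = s
        · obtain ⟨rfl, hs'⟩ := hs'
          rw [if_pos ⟨rfl, by rw [← hv.1, ← hv.2, ← hs']⟩, (hb' i j s q p hv.1 hv.2).1 hs',
            map_smul, map_smul]
          have := congrFun (hu2 (g' - s)) p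
          rw [pr_apply, pr_apply, show g' - s + w p = g' + w q by linarith] at this
          rw [this]
        · rw [if_neg, map_smul]
          · have hlt : g - s < g' + w q - w p := by
              by_contra hc
              exact hs' ⟨by linarith [not_lt.1 hc, not_lt.1 hs],
                by linarith [not_lt.1 hc, not_lt.1 hs]⟩
            have := congrFun (hu1 (g - s) _ hlt) p
            rw [pr_apply, sub_add_cancel] at this
            rw [this]
            simp
          · rintro ⟨e1, e⟩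
            exact hs' ⟨e1, (congrArg (fun t : ι × ι × ℝ => t.2.2) e).symm⟩
    · rw [P.blk_neg _ hv, zero_smul, map_zero, if_neg]
      rintro ⟨-, e⟩
      exact hv ⟨(congrArg (fun t : ι × ι × ℝ => t.1) e).symm,
        (congrArg (fun t : ι × ι × ℝ => t.2.1) e).symm⟩
  have tot : ∀ (g' : ℝ) (q : Pt), g ≤ g' → pr k Γ w g' (∑ t ∈ Finset.univ.image τ,
      act (P.blk t.1 t.2.1 (b t.1 t.2.1 t.2.2)) (u (g - t.2.2))) q =
        if g' = g then pr k Γ w g (act b₀ x) q else 0 := by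
    intro g' q hg
    rw [pr_apply, Finset.sum_apply, map_sum]
    simp only [act, map_sum, term _ g' q _ hg]
    rw [Finset.sum_comm]
    by_cases e : g' = g
    · rw [if_pos e, pr_apply, show act b₀ x q = ∑ p, b₀ q p • x p from rfl, map_sum]
      refine Finset.sum_congr rfl fun p _ => ?_
      simp only [e, true_and]
      rw [Finset.sum_ite_eq', if_pos (Finset.mem_image_of_mem τ (Finset.mem_univ _))]
    · simp [e]
  refine ⟨∑ t ∈ Finset.univ.image τ, act (P.blk t.1 t.2.1 (b t.1 t.2.1 t.2.2)) (u (g - t.2.2)),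
    U.sum_mem fun t _ => hU _ (P.blk_mem (hb _ _ _) _ _).1 _ (hu _), fun g' hg => ?_, ?_⟩
  · funext q
    rw [tot g' q hg.le, if_neg hg.ne']
    rfl
  · funext q
    rw [tot g q le_rfl, if_pos rfl]

theorem ap_act (a : End F V) (b : Matrix Pt Pt F) (u : Pt → V) :
    ap k a (act b u) = act b (ap k a u) := by
  funext q
  simp [ap_apply, act]

end FdA

open FdA in
theorem fd : SFD := by
  intro k F _ _ _ _ Pt ι _ _ P P₀ w hvt htop ⟨c, hc⟩
  refine ⟨c, fun V _ _ _ M hM => ?_⟩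
  letI : Module k V := Module.compHom V (algebraMap k F)
  haveI : IsScalarTower k F V := IsScalarTower.of_algebraMap_smul fun _ _ => rfl
  have hε : M.ε () = LinearMap.id := by simpa using M.sum
  let U₀ : Submodule k (Pt → V) :=
    { carrier := M.U
      add_mem' := M.U.add_mem
      zero_mem' := M.U.zero_mem
      smul_mem' := fun a u hu => by
        have := M.stab _ (P.B.algebraMap_mem a) u hu
        have e : act (algebraMap k (Matrix Pt Pt F) a) u = a • u := by
          funext q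
          simp only [act, Matrix.algebraMap_matrix_apply, ite_smul, zero_smul, Finset.sum_ite_eq,
            Finset.mem_univ, if_true]
          rfl
        rwa [e] at this }
  obtain ⟨Γ, U, ⟨a, a', -, -, hU⟩, hmain⟩ := core (k := k) (F := F) w
    (fun U => ∃ a a' : End F V, a * a' = 1 ∧ a' * a = 1 ∧ ∀ u, u ∈ U ↔ ap k a u ∈ U₀)
    (by
      rintro U U' b b' ⟨a, a', h1, h2, h3⟩ h4 h5 h6
      refine ⟨a * b, b' * a', ?_, ?_, fun u => by rw [h6, h3, ap_mul]⟩
      · rw [mul_assoc, ← mul_assoc b, h4, one_mul, h1]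
      · rw [mul_assoc, ← mul_assoc a', h2, one_mul, h5])
    ⟨U₀, 1, 1, mul_one _, mul_one _, fun _ => Iff.rfl⟩
  have hst : ∀ b ∈ P.B, ∀ u ∈ U, act b u ∈ U := fun b hb u hu => by
    rw [hU, ap_act]
    exact M.stab b hb _ ((hU u).1 hu)
  let M₀ : Obj P₀ V :=
    { ε := fun _ => LinearMap.id
      orth := fun _ _ h => (h rfl).elim
      sum := by simp
      U := (inU k Γ w U).toAddSubgroup
      peak := fun _ _ _ => rfl
      stab := fun b hb _ hx => inU_stab P hst b (htop b hb) hx }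
  let G : Grd M₀ fun p => Multiplicative.ofAdd (w p) :=
    { π := fun g => Γ.π g.toAdd
      s := Γ.s.map Multiplicative.ofAdd.toEmbedding
      supp := fun g hg => Γ.supp _ fun h => hg (Finset.mem_map.2 ⟨_, h, rfl⟩)
      orth := fun g g' h => Γ.orth _ _ h
      sum := by rw [Finset.sum_map]; exact Γ.sum
      comm := fun _ _ => rfl
      hom := fun x hx g => pr_mem (k := k) hx g.toAdd }
  refine hc V M₀ G ⟨hM.1, fun e he hcm hee => ?_⟩
  obtain ⟨U', ⟨b, b', h1, h2, h3⟩, h4⟩ := hmain e hee (fun r => hcm (Multiplicative.ofAdd r)) he.2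
  have hid : (b * e * b') * (b * e * b') = b * e * b' := by
    have hee' : e * e = e := hee
    rw [mul_assoc (b * e), ← mul_assoc b', ← mul_assoc b', h2, one_mul, ← mul_assoc,
      mul_assoc b e e, hee']
  have hback : e = b' * (b * e * b') * b := by
    rw [← mul_assoc, ← mul_assoc, h2, one_mul, mul_assoc, h2, mul_one]
  rcases hM.2 (b * e * b') ⟨fun o => by rw [hε]; rfl, fun u hu => by
    have h5 : ap k b' u ∈ U' := by
      rw [h3, ← ap_mul, h1]
      exact hu
    exact (h3 _).1 (h4 _ h5)⟩ hid with h | h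
  · left
    rw [hback, h, mul_zero, zero_mul]
  · right
    rw [hback, h]
    exact h2

end Pool.Agent.MP_bd94e8_al.H89
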