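import Pool.Agent.MP_bd94e8_al.H89.Spec

/-! Real gradings, initial subspaces, and the endomorphism inequality for extensions. -/

set_option autoImplicit false
set_option linter.unusedSectionVars false

namespace Pool.Agent.MP_bd94e8_al.H89

open Module Function

namespace FdA

theorem desc (I : Finset ℝ) (Q : ℝ → Prop) (h0 : ∀ h, (∀ i ∈ I, h ≤ i) → Q h)
    (hs : ∀ h g, g < h → (∀ i ∈ I, i < h → i ≤ g) → Q g → Q h) (h : ℝ) : Q h := by
  classical
  have key : ∀ n, ∀ h, (I.filter (· < h)).card = n → Q h := by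
    intro n
    induction n using Nat.strong_induction_on with
    | _ n ih =>
      intro h hn
      rcases (I.filter (· < h)).eq_empty_or_nonempty with he | hne
      · refine h0 h fun i hi => not_lt.1 fun hlt => ?_
        have : i ∈ I.filter (· < h) := Finset.mem_filter.2 ⟨hi, hlt⟩
        rw [he] at this
        simp at this
      · have hm := Finset.mem_filter.1 (Finset.max'_mem _ hne)
        refine hs h _ hm.2 (fun i hi hlt => Finset.le_max' _ i (Finset.mem_filter.2 ⟨hi, hlt⟩))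
          (ih _ ?_ _ rfl)
        rw [← hn]
        refine Finset.card_lt_card ⟨fun i hi => ?_, fun hsub => ?_⟩
        · rw [Finset.mem_filter] at hi ⊢
          exact ⟨hi.1, hi.2.trans hm.2⟩
        · exact lt_irrefl _ (Finset.mem_filter.1 (hsub (Finset.max'_mem _ hne))).2
  exact key _ h rfl

theorem asc (D : Finset ℝ) (Q : ℝ → Prop) (h0 : ∀ d, (∀ i ∈ D, i ≤ d) → Q d)
    (hs : ∀ d d', d < d' → (∀ i ∈ D, d < i → d' ≤ i) → Q d' → Q d) (d : ℝ) : Q d := by
  classical
  have := desc (D.image fun x => -x) (fun h => Q (-h))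
    (fun h hh => h0 _ fun i hi => by
      have := hh (-i) (Finset.mem_image.2 ⟨i, hi, rfl⟩)
      linarith)
    (fun h g hg hh hq => hs (-h) (-g) (by linarith) (fun i hi hlt => by
      have := hh (-i) (Finset.mem_image.2 ⟨i, hi, rfl⟩) (by linarith)
      linarith) hq) (-d)
  simpa using this

/-- A real grading. -/
structure Gr (F V : Type) [Field F] [AddCommGroup V] [Module F V] where
  π : ℝ → End F V
  s : Finset ℝ
  supp : ∀ r, r ∉ s → π r = 0
  orth : ∀ r r', r ≠ r' → π r * π r' = 0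
  sum : ∑ r ∈ s, π r = 1

section
variable {F V : Type} [Field F] [AddCommGroup V] [Module F V]

theorem Gr.idem (Γ : Gr F V) (r : ℝ) : Γ.π r * Γ.π r = Γ.π r := by
  by_cases hr : r ∈ Γ.s
  · conv_rhs => rw [← mul_one (Γ.π r), ← Γ.sum, Finset.mul_sum]
    rw [Finset.sum_eq_single r (fun b _ hb => Γ.orth r b hb.symm) (fun h => (h hr).elim)]
  · rw [Γ.supp r hr, mul_zero]

theorem mul4 {R : Type} [Ring R] {x y a b : R} (h : a * y = y * a) :
    x * a * (y * b) = x * y * (a * b) := by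
  rw [mul_assoc x a, ← mul_assoc a, h, mul_assoc y, ← mul_assoc x]

theorem comm_one_sub {R : Type} [Ring R] {e y : R} (h : e * y = y * e) :
    (1 - e) * y = y * (1 - e) := by
  rw [sub_mul, mul_sub, h, one_mul, mul_one]

/-- Shift the range of `e` by `d`. -/
noncomputable def Gr.sh (Γ : Gr F V) (e : End F V) (he : e * e = e)
    (hc : ∀ r, e * Γ.π r = Γ.π r * e) (d : ℝ) : Gr F V where
  π r := Γ.π r * (1 - e) + Γ.π (r - d) * e
  s := Γ.s ∪ Γ.s.image (· + d)
  supp r hr := by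
    rw [Finset.mem_union, not_or] at hr
    rw [Γ.supp r hr.1, Γ.supp (r - d) fun h => hr.2 (Finset.mem_image.2 ⟨_, h, by ring⟩)]
    simp
  orth r r' h := by
    have h1 : (1 - e) * e = 0 := by rw [sub_mul, one_mul, he, sub_self]
    have h2 : e * (1 - e) = 0 := by rw [mul_sub, mul_one, he, sub_self]
    rw [add_mul, mul_add, mul_add, mul4 (comm_one_sub (hc _)), mul4 (comm_one_sub (hc _)),
      mul4 (hc _), mul4 (hc _), h1, h2, Γ.orth r r' h,
      Γ.orth (r - d) (r' - d) fun e => h (by linarith)]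
    simp
  sum := by
    rw [Finset.sum_add_distrib, ← Finset.sum_mul, ← Finset.sum_mul,
      ← Finset.sum_subset Finset.subset_union_left (fun r _ hr => Γ.supp r hr), Γ.sum,
      ← Finset.sum_subset (f := fun r => Γ.π (r - d)) Finset.subset_union_right
        (fun r _ hr => Γ.supp (r - d) fun h => hr (Finset.mem_image.2 ⟨_, h, by ring⟩)),
      Finset.sum_image (fun a _ b _ h => by simpa using h)]
    simp [Γ.sum]

end

variable (k : Type) {F V Pt : Type} [Field k] [Field F] [Algebra k F] [AddCommGroup V] [Module F V]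
  [Module k V] [IsScalarTower k F V] [Fintype Pt]

/-- Apply an endomorphism at each point. -/
def ap (a : End F V) : (Pt → V) →ₗ[k] (Pt → V) := (a.restrictScalars k).compLeft Pt

/-- The part of index `g`. -/
def pr (Γ : Gr F V) (w : Pt → ℝ) (g : ℝ) : (Pt → V) →ₗ[k] (Pt → V) :=
  LinearMap.pi fun p => (Γ.π (g + w p)).restrictScalars k ∘ₗ LinearMap.proj p

/-- All indices are at most `g`. -/
def Le (Γ : Gr F V) (w : Pt → ℝ) (g : ℝ) (u : Pt → V) : Prop := ∀ g', g < g' → pr k Γ w g' u = 0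

/-- All indices are below `g`. -/
def Lt (Γ : Gr F V) (w : Pt → ℝ) (g : ℝ) (u : Pt → V) : Prop := ∀ g', g ≤ g' → pr k Γ w g' u = 0

/-- The initial subspace. -/
def inU (Γ : Gr F V) (w : Pt → ℝ) (U : Submodule k (Pt → V)) : Submodule k (Pt → V) where
  carrier := {x | ∀ g, ∃ u ∈ U, Le k Γ w g u ∧ pr k Γ w g u = pr k Γ w g x}
  add_mem' := fun {x y} hx hy g => by
    obtain ⟨u, hu, h1, h2⟩ := hx g
    obtain ⟨v, hv, h3, h4⟩ := hy g
    exact ⟨u + v, U.add_mem hu hv, fun g' hg => by rw [map_add, h1 g' hg, h3 g' hg, add_zero],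
      by rw [map_add, map_add, h2, h4]⟩
  zero_mem' := fun g => ⟨0, U.zero_mem, fun _ _ => map_zero _, rfl⟩
  smul_mem' := fun c x hx g => by
    obtain ⟨u, hu, h1, h2⟩ := hx g
    exact ⟨c • u, U.smul_mem c hu, fun g' hg => by rw [map_smul, h1 g' hg, smul_zero],
      by rw [map_smul, map_smul, h2]⟩

/-- The endomorphisms that preserve `W`. -/
def EndS (W : Submodule k (Pt → V)) : Submodule k (End F V) where
  carrier := {a | ∀ x ∈ W, ap k a x ∈ W}
  add_mem' := fun {a b} ha hb x hx => W.add_mem (ha x hx) (hb x hx)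
  zero_mem' := fun _ _ => W.zero_mem
  smul_mem' := fun c _ ha x hx => W.smul_mem c (ha x hx)

/-- The possible indices. -/
noncomputable def idx (Γ : Gr F V) (w : Pt → ℝ) : Finset ℝ :=
  (Γ.s ×ˢ Finset.univ).image fun x : ℝ × Pt => x.1 - w x.2

variable {k}

theorem ap_apply (a : End F V) (u : Pt → V) (p : Pt) : ap k a u p = a (u p) := rfl

theorem ap_mul (a b : End F V) (u : Pt → V) : ap k (a * b) u = ap k a (ap k b u) := rfl

theorem ap_add (a b : End F V) (u : Pt → V) : ap k (a + b) u = ap k a u + ap k b u := rfl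

theorem ap_sub (a b : End F V) (u : Pt → V) : ap k (a - b) u = ap k a u - ap k b u := rfl

theorem ap_one (u : Pt → V) : ap k (1 : End F V) u = u := rfl

theorem ap_zero (u : Pt → V) : ap k (0 : End F V) u = 0 := rfl

variable {Γ : Gr F V} {w : Pt → ℝ}

theorem pr_apply (g : ℝ) (u : Pt → V) (p : Pt) : pr k Γ w g u p = Γ.π (g + w p) (u p) := rfl

theorem pr_pr (g : ℝ) (u : Pt → V) : pr k Γ w g (pr k Γ w g u) = pr k Γ w g u := by
  funext p
  exact LinearMap.congr_fun (Γ.idem (g + w p)) (u p)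

theorem pr_pr_ne {g g' : ℝ} (h : g ≠ g') (u : Pt → V) : pr k Γ w g (pr k Γ w g' u) = 0 := by
  funext p
  exact LinearMap.congr_fun (Γ.orth (g + w p) (g' + w p) fun e => h (by linarith)) (u p)

theorem pr_ap {e : End F V} (hc : ∀ r, e * Γ.π r = Γ.π r * e) (g : ℝ) (u : Pt → V) :
    pr k Γ w g (ap k e u) = ap k e (pr k Γ w g u) := by
  funext p
  exact (LinearMap.congr_fun (hc (g + w p)) (u p)).symm

theorem pr_low {n : End F V} {d : ℝ} (hn : ∀ r, Γ.π (r - d) * n = n * Γ.π r) (g : ℝ)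
    (u : Pt → V) : pr k Γ w (g - d) (ap k n u) = ap k n (pr k Γ w g u) := by
  funext p
  have := LinearMap.congr_fun (hn (g + w p)) (u p)
  rw [show g + w p - d = g - d + w p by ring] at this
  exact this

theorem pr_sh {e : End F V} (he : e * e = e) (hc : ∀ r, e * Γ.π r = Γ.π r * e) (d g : ℝ)
    (u : Pt → V) : pr k (Γ.sh e he hc d) w g u =
      pr k Γ w g (ap k (1 - e) u) + pr k Γ w (g - d) (ap k e u) := by
  funext p
  change (Γ.π (g + w p) * (1 - e) + Γ.π (g + w p - d) * e) (u p) = _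
  rw [show g + w p - d = g - d + w p by ring]
  rfl

theorem pr_notMem {g : ℝ} (h : g ∉ idx Γ w) (u : Pt → V) : pr k Γ w g u = 0 := by
  funext p
  rw [pr_apply, Γ.supp _ fun hs => h (Finset.mem_image.2 ⟨(g + w p, p), by simp [hs], by simp⟩)]
  rfl

theorem eq_zero_of_pr {u : Pt → V} (h : ∀ g, pr k Γ w g u = 0) : u = 0 := by
  funext p
  have h1 := LinearMap.congr_fun Γ.sum (u p)
  rw [LinearMap.sum_apply, Finset.sum_eq_zero] at h1
  · exact h1.symm
  · intro r _
    have := congrFun (h (r - w p)) p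
    rwa [pr_apply, sub_add_cancel] at this

theorem sum_pr (u : Pt → V) : ∑ g ∈ idx Γ w, pr k Γ w g u = u := by
  rw [← sub_eq_zero]
  refine eq_zero_of_pr (k := k) (Γ := Γ) (w := w) fun g => ?_
  rw [map_sub, map_sum, Finset.sum_eq_single g (fun b _ hb => pr_pr_ne hb.symm u)
    (fun h => pr_notMem h _), pr_pr, sub_self]

theorem Lt.le {g g' : ℝ} {u : Pt → V} (h : Lt k Γ w g u) (hI : ∀ i ∈ idx Γ w, i < g → i ≤ g') :
    Le k Γ w g' u := by
  intro i hi
  by_cases hm : i ∈ idx Γ w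
  · exact h i (not_lt.1 fun hlt => not_lt.2 (hI i hm hlt) hi)
  · exact pr_notMem hm u

theorem Le.lt {g : ℝ} {u : Pt → V} (h : Le k Γ w g u) (h0 : pr k Γ w g u = 0) : Lt k Γ w g u := by
  intro i hi
  rcases hi.eq_or_lt with rfl | hi
  · exact h0
  · exact h i hi

theorem Le.mono {g g' : ℝ} {u : Pt → V} (h : Le k Γ w g u) (hg : g ≤ g') : Le k Γ w g' u :=
  fun i hi => h i (hg.trans_lt hi)

theorem Le.sub {g : ℝ} {u v : Pt → V} (h : Le k Γ w g u) (h' : Le k Γ w g v) :
    Le k Γ w g (u - v) := fun i hi => by rw [map_sub, h i hi, h' i hi, sub_zero]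

theorem Le.add {g : ℝ} {u v : Pt → V} (h : Le k Γ w g u) (h' : Le k Γ w g v) :
    Le k Γ w g (u + v) := fun i hi => by rw [map_add, h i hi, h' i hi, add_zero]

theorem Le.ap {e : End F V} (hc : ∀ r, e * Γ.π r = Γ.π r * e) {g : ℝ} {u : Pt → V}
    (h : Le k Γ w g u) : Le k Γ w g (ap k e u) := fun i hi => by
  rw [pr_ap hc, h i hi, map_zero]

theorem Le.low {n : End F V} {d : ℝ} (hn : ∀ r, Γ.π (r - d) * n = n * Γ.π r) {g : ℝ}
    {u : Pt → V} (h : Le k Γ w g u) : Le k Γ w (g - d) (FdA.ap k n u) := fun i hi => by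
  have := pr_low (k := k) (w := w) hn (i + d) u
  rw [add_sub_cancel_right] at this
  rw [this, h _ (by linarith), map_zero]

theorem Lt.zero {g : ℝ} {u : Pt → V} (h : Lt k Γ w g u) (hI : ∀ i ∈ idx Γ w, g ≤ i) : u = 0 :=
  eq_zero_of_pr (k := k) (Γ := Γ) (w := w) fun i => by
    by_cases hm : i ∈ idx Γ w
    · exact h i (hI i hm)
    · exact pr_notMem hm u

variable {U : Submodule k (Pt → V)}

theorem mem_inU {x : Pt → V} :
    x ∈ inU k Γ w U ↔ ∀ g, ∃ u ∈ U, Le k Γ w g u ∧ pr k Γ w g u = pr k Γ w g x := Iff.rfl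

theorem mem_of_le {u : Pt → V} {g : ℝ} (hu : u ∈ U) (h : Le k Γ w g u) :
    pr k Γ w g u ∈ inU k Γ w U := by
  intro g'
  by_cases e : g' = g
  · subst e
    exact ⟨u, hu, h, (pr_pr _ _).symm⟩
  · exact ⟨0, U.zero_mem, fun _ _ => map_zero _, by rw [map_zero, pr_pr_ne e]⟩

theorem pr_mem {x : Pt → V} (hx : x ∈ inU k Γ w U) (g : ℝ) : pr k Γ w g x ∈ inU k Γ w U := by
  obtain ⟨u, hu, h1, h2⟩ := hx g
  rw [← h2]
  exact mem_of_le hu h1

theorem mem_of_pr {x : Pt → V} (hx : ∀ g, pr k Γ w g x ∈ inU k Γ w U) : x ∈ inU k Γ w U := by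
  intro g
  obtain ⟨u, hu, h1, h2⟩ := hx g g
  exact ⟨u, hu, h1, by rw [h2, pr_pr]⟩

theorem inU_le {U' : Submodule k (Pt → V)} {n : End F V} {d : ℝ} (hd : 0 < d)
    (hn : ∀ r, Γ.π (r - d) * n = n * Γ.π r) (h : ∀ u ∈ U, u + ap k n u ∈ U') :
    inU k Γ w U ≤ inU k Γ w U' := by
  intro x hx g
  obtain ⟨u, hu, h1, h2⟩ := hx g
  refine ⟨_, h u hu, h1.add ((h1.low hn).mono (by linarith)), ?_⟩
  rw [map_add, h2, h1.low hn g (by linarith), add_zero]

theorem rank_split {X : Type} [AddCommGroup X] [Module k X] [FiniteDimensional k X]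
    (Q : X →ₗ[k] X) (G : Submodule k X) :
    finrank k G = finrank k (G.map Q) + finrank k (G ⊓ LinearMap.ker Q : Submodule k X) := by
  have h := LinearMap.finrank_range_add_finrank_ker (Q.domRestrict G)
  rw [LinearMap.range_domRestrict, LinearMap.ker_domRestrict] at h
  rw [← h]
  congr 1
  rw [← Submodule.finrank_map_subtype_eq G, Submodule.map_comap_subtype]

theorem ext_split [FiniteDimensional k F] [FiniteDimensional F V] (W E : Submodule k (Pt → V))
    (e : End F V) (he : e * e = e) (hW : ∀ x ∈ W, ap k e x ∈ W) (h1 : ∀ x ∈ W, ap k e x ∈ E)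
    (h2 : ∀ y ∈ E, ap k (1 - e) y ∈ W) (h3 : ∀ y ∈ E, ap k (1 - e) y = 0 → y ∈ W)
    (h4 : ∀ x ∈ W, ∃ y ∈ E, ap k (1 - e) y = ap k (1 - e) x)
    (hmin : finrank k (EndS k W : Submodule k (End F V)) ≤
      finrank k (EndS k E : Submodule k (End F V))) :
    ∃ φ : End F V, e * φ = φ ∧ φ * e = 0 ∧ ∀ x ∈ W, ap k (1 - e) x + ap k φ x ∈ E := by
  haveI : FiniteDimensional k (End F V) := Module.Finite.trans F _
  set f : End F V := 1 - e with hf
  have ef : e * f = 0 := by rw [hf, mul_sub, mul_one, he, sub_self]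
  have fe : f * e = 0 := by rw [hf, sub_mul, one_mul, he, sub_self]
  have ff : f * f = f := by rw [hf, mul_sub, mul_one, ← hf, fe, sub_zero]
  have one : e + f = 1 := by rw [hf]; abel
  have dec : ∀ g : End F V, g = f * g * e + (e * g * e + f * g * f) + e * g * f := by
    intro g
    conv_lhs => rw [← one_mul g, ← mul_one (1 * g), ← one]
    noncomm_ring
  let Q1 : End F V →ₗ[k] End F V := LinearMap.mulRight k e ∘ₗ LinearMap.mulLeft k f
  let Q0 : End F V →ₗ[k] End F V :=
    LinearMap.mulRight k e ∘ₗ LinearMap.mulLeft k e + LinearMap.mulRight k f ∘ₗ LinearMap.mulLeft k f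
  have q1 : ∀ g, Q1 g = f * g * e := fun _ => rfl
  have q0 : ∀ g, Q0 g = e * g * e + f * g * f := fun _ => rfl
  have a1 : (EndS k E : Submodule k (End F V)).map Q1 ≤ (EndS k W).map Q1 := by
    rintro _ ⟨g, hg, rfl⟩
    refine ⟨f * g * e, fun x hx => h2 _ (hg _ (h1 x hx)), ?_⟩
    rw [q1, q1, ← mul_assoc, ← mul_assoc, ff, mul_assoc _ e e, he]
  have a0 : ((EndS k E : Submodule k (End F V)) ⊓ LinearMap.ker Q1).map Q0 ≤
      (EndS k W ⊓ LinearMap.ker Q1).map Q0 := by
    rintro _ ⟨g, ⟨hg, hg1⟩, rfl⟩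
    have hg2 : f * g * e = 0 := hg1
    refine ⟨e * g * e + f * g * f, ⟨fun x hx => ?_, ?_⟩, ?_⟩
    · rw [ap_add]
      refine W.add_mem (hW _ (h3 _ (hg _ (h1 x hx)) ?_)) ?_
      · change ap k (f * g * e) x = 0
        rw [hg2, ap_zero]
      · obtain ⟨y, hy, hxy⟩ := h4 x hx
        have : f * g * f = f * g := by
          conv_rhs => rw [← mul_one (f * g), ← one, mul_add, hg2, zero_add]
        rw [ap_mul, ← hxy, ← ap_mul, this]
        exact h2 _ (hg y hy)
    · change f * (e * g * e + f * g * f) * e = 0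
      rw [mul_add, add_mul, ← mul_assoc, ← mul_assoc, fe, mul_assoc f (f * g * f) e,
        mul_assoc _ f e, fe]
      simp
    · rw [q0, q0]
      have e1 : e * (e * g * e + f * g * f) * e = e * g * e := by
        rw [mul_add, add_mul, ← mul_assoc, ← mul_assoc, he, mul_assoc _ e e, he, ← mul_assoc,
          ← mul_assoc, ef]
        simp
      have e2 : f * (e * g * e + f * g * f) * f = f * g * f := by
        rw [mul_add, add_mul, ← mul_assoc, ← mul_assoc, fe, ← mul_assoc, ← mul_assoc, ff,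
          mul_assoc _ f f, ff]
        simp
      rw [e1, e2]
  have a2 : ((EndS k E : Submodule k (End F V)) ⊓ LinearMap.ker Q1) ⊓ LinearMap.ker Q0 ≤
      (EndS k W ⊓ LinearMap.ker Q1) ⊓ LinearMap.ker Q0 := by
    rintro g ⟨⟨hg, hg1⟩, hg0⟩
    refine ⟨⟨fun x hx => ?_, hg1⟩, hg0⟩
    have hg2 : f * g * e = 0 := hg1
    have hg3 : e * g * e + f * g * f = 0 := hg0
    have hg4 : g = e * g * f := by
      have := dec g
      rwa [hg2, hg3, zero_add, zero_add] at this
    obtain ⟨y, hy, hxy⟩ := h4 x hx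
    have : ap k g x = ap k g y := by rw [hg4, ap_mul, ← hxy, ← ap_mul]
    rw [this]
    refine h3 _ (hg y hy) ?_
    rw [← ap_mul, hg4, ← mul_assoc, ← mul_assoc, fe, zero_mul, zero_mul, ap_zero]
  have b1 := Submodule.finrank_mono a1
  have b2 := Submodule.finrank_mono a2
  have c1 := rank_split Q1 (EndS k E : Submodule k (End F V))
  have c2 := rank_split Q1 (EndS k W : Submodule k (End F V))
  have c3 := rank_split Q0 ((EndS k E : Submodule k (End F V)) ⊓ LinearMap.ker Q1)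
  have c4 := rank_split Q0 ((EndS k W : Submodule k (End F V)) ⊓ LinearMap.ker Q1)
  have heq := Submodule.eq_of_le_of_finrank_le a0 (by omega)
  have hfm : f ∈ ((EndS k W : Submodule k (End F V)) ⊓ LinearMap.ker Q1).map Q0 := by
    refine ⟨f, ⟨fun x hx => W.sub_mem hx (hW x hx), ?_⟩, ?_⟩
    · change f * f * e = 0
      rw [ff, fe]
    · rw [q0, ef, ff, ff, zero_mul, zero_add]
  rw [← heq] at hfm
  obtain ⟨g, ⟨hg, hg1⟩, hg0⟩ := hfm
  have hg2 : f * g * e = 0 := hg1
  rw [q0] at hg0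
  refine ⟨e * g * f, by rw [← mul_assoc, ← mul_assoc, he], by rw [mul_assoc, fe, mul_zero],
    fun x hx => ?_⟩
  obtain ⟨y, hy, hxy⟩ := h4 x hx
  have hd := dec g
  rw [hg2, hg0, zero_add] at hd
  have := hg y hy
  rw [hd, ap_add, ap_mul, hxy] at this
  exact this

end FdA

end Pool.Agent.MP_bd94e8_al.H89
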